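import Mathlib
import Pool.Agent.H.MP_035beb_an.C

open scoped ContDiff Topology
open Filter Set Pool.Agent.H.MP_035beb_an

namespace Pool.Agent.Results.MP_035beb_an.Ellipse

theorem ell {p q r k l m : ℝ} (hp : p ≠ 0) (hD : 0 < p * r - q ^ 2) (Φ : ℝ × ℝ → ℝ)
    (hΦ : ∀ X, Φ X = p * X.1 ^ 2 + 2 * q * X.1 * X.2 + r * X.2 ^ 2 + 2 * k * X.1 + 2 * l * X.2 + m)
    {A B : ℝ × ℝ} (hAB : A ≠ B) (hA : Φ A = 0) (hB : Φ B = 0) :
    ∃ c a b : ℝ × ℝ, cr a b ≠ 0 ∧
      {X | Φ X = 0} = {X | ∃ x y : ℝ, x ^ 2 + y ^ 2 = 1 ∧ X = c + x • a + y • b} := by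
  set D := p * r - q ^ 2 with hD'
  obtain ⟨c, c1, c2⟩ : ∃ c : ℝ × ℝ, p * c.1 + q * c.2 = -k ∧ q * c.1 + r * c.2 = -l := by
    refine ⟨((q * l - r * k) / D, (q * k - p * l) / D), ?_, ?_⟩ <;>
      simp only <;> field_simp <;> rw [hD'] <;> ring
  have key : ∀ X, p * Φ X = (p * (X.1 - c.1) + q * (X.2 - c.2)) ^ 2 + D * (X.2 - c.2) ^ 2 +
      p * Φ c := by
    intro X
    rw [hΦ, hΦ, hD']
    linear_combination (2 * p * (X.1 - c.1)) * c1 + (2 * p * (X.2 - c.2)) * c2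
  have hκ : 0 < -(p * Φ c) := by
    have : ∀ X, X ≠ c → Φ X = 0 → 0 < -(p * Φ c) := by
      intro X h1 h2
      have e := key X
      rw [h2, mul_zero] at e
      by_cases h : X.2 - c.2 = 0
      · have h3 : X.1 - c.1 ≠ 0 := fun h3 => h1 (Prod.ext (by linarith) (by linarith))
        have := mul_self_pos.2 (mul_ne_zero hp h3)
        rw [h] at e
        nlinarith
      · have := mul_pos hD (mul_self_pos.2 h)
        nlinarith [sq_nonneg (p * (X.1 - c.1) + q * (X.2 - c.2))]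
    by_cases h : A = c
    · exact this B (fun e => hAB (h.trans e.symm)) hB
    · exact this A h hA
  obtain ⟨u, u0, hu⟩ : ∃ u : ℝ, u ≠ 0 ∧ u ^ 2 = -(p * Φ c) :=
    ⟨√(-(p * Φ c)), (Real.sqrt_pos.2 hκ).ne', Real.sq_sqrt hκ.le⟩
  obtain ⟨v, v0, hv⟩ : ∃ v : ℝ, v ≠ 0 ∧ D * v ^ 2 = u ^ 2 :=
    ⟨√(-(p * Φ c) / D), (Real.sqrt_pos.2 (div_pos hκ hD)).ne', by
      rw [Real.sq_sqrt (div_pos hκ hD).le, hu]; field_simp⟩
  refine ⟨c, (u / p, 0), (-(q * v) / p, v), ?_, ?_⟩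
  · simp only [cr, zero_mul, sub_zero]
    exact mul_ne_zero (div_ne_zero u0 hp) v0
  · ext X
    simp only [mem_ofPred_eq]
    constructor
    · intro h
      have e := key X
      rw [h, mul_zero] at e
      refine ⟨(p * (X.1 - c.1) + q * (X.2 - c.2)) / u, (X.2 - c.2) / v, ?_, Prod.ext ?_ ?_⟩
      · field_simp
        linear_combination (-v ^ 2) * e - (X.2 - c.2) ^ 2 * hv - v ^ 2 * hu
      · simp only [Prod.fst_add, Prod.smul_fst, smul_eq_mul]; field_simp; ring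
      · simp only [Prod.snd_add, Prod.smul_snd, smul_eq_mul]; field_simp; ring
    · rintro ⟨x, y, h, e⟩
      have e1 : p * (X.1 - c.1) = x * u - y * q * v := by
        rw [e]; simp only [Prod.fst_add, Prod.smul_fst, smul_eq_mul]; field_simp; ring
      have e2 : X.2 - c.2 = y * v := by
        rw [e]; simp only [Prod.snd_add, Prod.smul_snd, smul_eq_mul]; ring
      apply mul_left_cancel₀ hp
      rw [key, e1, e2]
      linear_combination y ^ 2 * hv + hu + u ^ 2 * h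

theorem result (g : ℝ → ℝ × ℝ) (hg : Oval g)
    (H : ∀ P Q, P ∉ range g → Q ∉ range g → P ≠ Q → (∃ s, cr (Q - P) (g s - P) = 0) →
      MobConj g P Q) :
    ∃ c a b : ℝ × ℝ, cr a b ≠ 0 ∧
      range g = {X | ∃ x y : ℝ, x ^ 2 + y ^ 2 = 1 ∧ X = c + x • a + y • b} := by
  obtain ⟨c, c0, hc⟩ := hg.conic H rfl
  have hab : g (1 / 2) ≠ g 0 := hg.ne (by norm_num) (by norm_num)
  have x0 : cr (deriv g (1 / 2)) (g 0 - g (1 / 2)) ≠ 0 := fun e => hab (hg.strict _ _ e).symm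
  have z0 : cr (deriv g 0) (g (1 / 2) - g 0) ≠ 0 := fun e => hab (hg.strict _ _ e)
  have hsec := fun v => hg.second v 0
  generalize deriv g (1 / 2) = n at *
  generalize deriv g 0 = d at *
  generalize hB : g (1 / 2) = B at *
  generalize hA : g 0 = A at *
  let Φ : ℝ × ℝ → ℝ := fun X => cr n (X - B) * cr d (X - A) - c * cr (B - A) (X - A) ^ 2
  let Ψ : ℝ × ℝ → ℝ := fun v => cr n v * cr d v - c * cr (B - A) v ^ 2
  have line : ∀ (v : ℝ × ℝ) (κ : ℝ), Φ (A + κ • v) = κ * (cr n (A - B) * cr d v + κ * Ψ v) := by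
    intro v κ
    simp only [Φ, Ψ, cr, Prod.smul_fst, Prod.smul_snd, Prod.fst_add, Prod.snd_add, Prod.fst_sub,
      Prod.snd_sub, smul_eq_mul]
    ring
  have on : ∀ s, Φ (g s) = 0 := fun s => sub_eq_zero.2 (hc s)
  have par : ∀ v : ℝ × ℝ, v ≠ 0 → cr d v = 0 → Ψ v ≠ 0 := by
    intro v hv h h'
    simp only [Ψ, h, mul_zero, zero_sub, neg_eq_zero] at h'
    have h2 := pow_eq_zero_iff (two_ne_zero) |>.1 ((mul_eq_zero.1 h').resolve_left c0)
    refine hv (Prod.ext ?_ ?_) <;> apply mul_left_cancel₀ z0 <;>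
      simp only [cr, Prod.fst_zero, Prod.snd_zero] at h h2 ⊢
    · linear_combination (B - A).1 * h - d.1 * h2
    · linear_combination (B - A).2 * h - d.2 * h2
  have sec : ∀ v : ℝ × ℝ, cr d v ≠ 0 → ∃ κ t : ℝ, g t = A + κ • v ∧
      cr n (A - B) * cr d v + κ * Ψ v = 0 := by
    intro v h
    have hv := nsq (u := v) (fun e => h (by simp [e, cr]))
    obtain ⟨t, h1, h2⟩ := hsec v (fun e => h (by simp only [cr] at e ⊢; linarith))
    have e : g t = A + ((v.1 * (g t - A).1 + v.2 * (g t - A).2) / (v.1 ^ 2 + v.2 ^ 2)) • v := by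
      refine Prod.ext ?_ ?_ <;> simp only [cr, Prod.smul_fst, Prod.smul_snd, Prod.fst_add,
        Prod.snd_add, Prod.fst_sub, Prod.snd_sub, smul_eq_mul] at h2 ⊢ <;> field_simp
      · linear_combination (-v.2) * h2
      · linear_combination v.1 * h2
    refine ⟨_, t, e, ?_⟩
    have := on t
    rw [e, line] at this
    refine (mul_eq_zero.1 this).resolve_left fun h0 => h1 ?_
    rw [e, h0]; simp
  have nz : ∀ v : ℝ × ℝ, v ≠ 0 → Ψ v ≠ 0 := by
    intro v hv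
    by_cases h : cr d v = 0
    · exact par v hv h
    · obtain ⟨κ, t, -, h2⟩ := sec v h
      intro h'
      rw [h', mul_zero, add_zero] at h2
      exact mul_ne_zero x0 h h2
  have rg : range g = {X | Φ X = 0} := by
    ext X
    refine ⟨by rintro ⟨s, rfl⟩; exact on s, fun h => ?_⟩
    by_cases hX : X - A = 0
    · exact ⟨0, hA.trans (sub_eq_zero.1 hX).symm⟩
    have e := line (X - A) 1
    rw [one_smul, add_sub_cancel, show Φ X = 0 from h] at e
    by_cases h1 : cr d (X - A) = 0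
    · rw [h1] at e
      exact absurd (by linarith) (nz _ hX)
    · obtain ⟨κ, t, h2, h3⟩ := sec _ h1
      have : κ = 1 := mul_right_cancel₀ (nz _ hX) (by linarith)
      exact ⟨t, by rw [h2, this]; simp⟩
  rw [rg]
  obtain ⟨p, q, r, hq⟩ : ∃ p q r : ℝ, ∀ v : ℝ × ℝ,
      Ψ v = p * v.1 ^ 2 + 2 * q * v.1 * v.2 + r * v.2 ^ 2 :=
    ⟨n.2 * d.2 - c * (B - A).2 ^ 2, (-(n.1 * d.2 + n.2 * d.1) + 2 * c * (B - A).1 * (B - A).2) / 2,
      n.1 * d.1 - c * (B - A).1 ^ 2, fun v => by simp only [Ψ, cr]; ring⟩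
  have hp : p ≠ 0 := by simpa [hq] using nz (1, 0) (by simp)
  have hD : 0 < p * r - q ^ 2 := by
    by_contra h
    have h' : 0 ≤ q ^ 2 - p * r := by linarith
    refine nz ((-q + √(q ^ 2 - p * r)) / p, 1) (by simp) ?_
    rw [hq]
    have := Real.sq_sqrt h'
    field_simp
    linear_combination this
  refine ell (k := (Φ (1, 0) - Φ (-1, 0)) / 4) (l := (Φ (0, 1) - Φ (0, -1)) / 4) (m := Φ 0)
    hp hD Φ (fun X => ?_) hab (hB ▸ on _) (hA ▸ on _)
  rw [← hq]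
  simp only [Φ, Ψ, cr, Prod.fst_sub, Prod.snd_sub, Prod.fst_zero, Prod.snd_zero]
  ring

end Pool.Agent.Results.MP_035beb_an.Ellipse
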